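import Mathlib
import Pool.Agent.Results.MP_308aa3_an.HalfSum

open Complex Set Filter Topology

namespace Pool.Agent.Y313.CX

open Pool.Agent.Results.MP_308aa3_an

open Pool.Agent.Results.MP_308aa3_an.HalfSum (IsSigma IsConvexSigma laurent_of_tendsto ext_ne
  q_re_pos ext_open ext_mem normSq_gt)

/-- The open cone of half opening `d` around the positive real axis. -/
def Cone (d : ℝ) : Set ℂ := {x | Real.cos d * |x.im| < Real.sin d * x.re}

lemma cone_cpow {s : ℝ} (hs0 : 0 < s) (hs1 : s < 1) {q : ℂ} (hq : 0 < q.re) :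
    q ^ (s : ℂ) ∈ Cone (s * (Real.pi / 2)) := by
  have hq0 : q ≠ 0 := by
    rintro rfl
    simp at hq
  have hn : 0 < ‖q‖ := norm_pos_iff.mpr hq0
  have hns : 0 < ‖q‖ ^ s := Real.rpow_pos_of_pos hn s
  have harg : |q.arg| < Real.pi / 2 := Complex.abs_arg_lt_pi_div_two_iff.mpr (Or.inl hq)
  have hpi := Real.pi_pos
  show Real.cos (s * (Real.pi / 2)) * |(q ^ (s : ℂ)).im| <
    Real.sin (s * (Real.pi / 2)) * (q ^ (s : ℂ)).re
  rw [Complex.cpow_ofReal_re, Complex.cpow_ofReal_im, abs_mul, abs_of_pos hns]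
  have h1 : |Real.sin (q.arg * s)| = Real.sin (|q.arg| * s) := by
    rw [Real.abs_sin_eq_sin_abs_of_abs_le_pi]
    · rw [abs_mul, abs_of_pos hs0]
    · rw [abs_mul, abs_of_pos hs0]
      nlinarith [abs_nonneg q.arg]
  have h2 : Real.cos (q.arg * s) = Real.cos (|q.arg| * s) := by
    rw [← Real.cos_abs, abs_mul, abs_of_pos hs0]
  rw [h1, h2]
  have h3 : 0 < Real.sin (s * (Real.pi / 2) - |q.arg| * s) := by
    apply Real.sin_pos_of_pos_of_lt_pi
    · nlinarith
    · nlinarith [abs_nonneg q.arg]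
  rw [Real.sin_sub] at h3
  nlinarith

/-- Mean value inequality for the difference quotients of a power. -/
lemma linear_diff {b : ℝ} (hb : 1 < b) {A B : ℝ}
    (hAB : ∀ x : ℂ, 0 < x.re → 0 < A * (x ^ ((b - 1 : ℝ) : ℂ)).re + B * (x ^ ((b - 1 : ℝ) : ℂ)).im)
    {q p : ℂ} (hq : 0 < q.re) (hp : 0 ≤ p.re) (hqp : q ≠ p) :
    0 < A * ((q ^ (b : ℂ) - p ^ (b : ℂ)) / (q - p)).re +
      B * ((q ^ (b : ℂ) - p ^ (b : ℂ)) / (q - p)).im := by
  set L : ℂ →L[ℝ] ℝ := A • Complex.reCLM + B • Complex.imCLM with hL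
  have hLv : ∀ x : ℂ, L x = A * x.re + B * x.im := by
    intro x
    simp [hL]
  have hb0 : 0 < b := by linarith
  have hqp' : q - p ≠ 0 := sub_ne_zero.mpr hqp
  set φ : ℝ → ℝ := fun u => L ((p + (u : ℂ) * (q - p)) ^ (b : ℂ) / (q - p)) with hφ
  have hre : ∀ u : ℝ, (p + (u : ℂ) * (q - p)).re = (1 - u) * p.re + u * q.re := by
    intro u
    simp only [Complex.add_re, Complex.mul_re, Complex.ofReal_re, Complex.ofReal_im,
      Complex.sub_re, Complex.sub_im]
    ring
  have hcont : ContinuousOn φ (Icc 0 1) := by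
    intro u hu
    apply ContinuousAt.continuousWithinAt
    have h1 : ContinuousAt (fun x : ℂ => x ^ (b : ℂ)) (p + (u : ℂ) * (q - p)) := by
      apply Complex.continuousAt_cpow_const_of_re_pos
      · left
        rw [hre]
        have := hu.1
        have := hu.2
        have : 0 ≤ (1 - u) * p.re := mul_nonneg (by linarith) hp
        have : 0 ≤ u * q.re := mul_nonneg (by linarith) hq.le
        linarith
      · simpa using hb0
    have h2 : ContinuousAt (fun v : ℝ => p + (v : ℂ) * (q - p)) u := by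
      apply Continuous.continuousAt
      fun_prop
    have h3 : ContinuousAt (fun v : ℝ => (p + (v : ℂ) * (q - p)) ^ (b : ℂ)) u :=
      ContinuousAt.comp (f := fun v : ℝ => p + (v : ℂ) * (q - p)) h1 h2
    exact L.continuous.continuousAt.comp (h3.div_const _)
  have hder : ∀ u ∈ interior (Icc (0 : ℝ) 1), 0 < deriv φ u := by
    intro u hu
    rw [interior_Icc] at hu
    have hpos : 0 < (p + (u : ℂ) * (q - p)).re := by
      rw [hre]
      have h1 := hu.1
      have h2 := hu.2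
      have : 0 ≤ (1 - u) * p.re := mul_nonneg (by linarith) hp
      have : 0 < u * q.re := mul_pos h1 hq
      linarith
    have h1 : HasDerivAt (fun v : ℂ => p + v * (q - p)) (q - p) (u : ℂ) := by
      have := ((hasDerivAt_id (u : ℂ)).mul_const (q - p)).const_add p
      simpa using this
    have h2 : HasDerivAt (fun v : ℂ => (p + v * (q - p)) ^ (b : ℂ) / (q - p))
        ((b : ℂ) * (p + (u : ℂ) * (q - p)) ^ ((b : ℂ) - 1) * (q - p) / (q - p)) (u : ℂ) :=
      (h1.cpow_const (c := (b : ℂ)) (Or.inl hpos)).div_const _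
    have h3 := h2.comp_ofReal
    have h4 : HasDerivAt φ (L ((b : ℂ) * (p + (u : ℂ) * (q - p)) ^ ((b : ℂ) - 1) * (q - p) /
        (q - p))) u := L.hasFDerivAt.comp_hasDerivAt u h3
    rw [h4.deriv, mul_div_assoc, div_self hqp', mul_one, hLv, Complex.re_ofReal_mul,
      Complex.im_ofReal_mul]
    have h5 := hAB _ hpos
    have h6 : ((b - 1 : ℝ) : ℂ) = (b : ℂ) - 1 := by push_cast; ring
    rw [h6] at h5
    have h7 := mul_pos hb0 h5
    linarith
  have hmono := strictMonoOn_of_deriv_pos (convex_Icc (0 : ℝ) 1) hcont hder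
  have h1 := hmono (left_mem_Icc.mpr zero_le_one) (right_mem_Icc.mpr zero_le_one) zero_lt_one
  have e0 : φ 0 = L (p ^ (b : ℂ) / (q - p)) := by
    simp [hφ]
  have e1 : φ 1 = L (q ^ (b : ℂ) / (q - p)) := by
    simp [hφ]
  rw [e0, e1] at h1
  have h2 : 0 < L ((q ^ (b : ℂ) - p ^ (b : ℂ)) / (q - p)) := by
    rw [sub_div, map_sub]
    linarith
  rwa [hLv] at h2

/-- The difference quotients of a power lie in a cone. -/
lemma cone_diff {b : ℝ} (hb : 1 < b) (hb2 : b < 2) {q p : ℂ} (hq : 0 < q.re) (hp : 0 ≤ p.re)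
    (hqp : q ≠ p) :
    (q ^ (b : ℂ) - p ^ (b : ℂ)) / (q - p) ∈ Cone ((b - 1) * (Real.pi / 2)) := by
  set d : ℝ := (b - 1) * (Real.pi / 2) with hd
  have hA : ∀ ε : ℝ, |ε| = 1 → 0 < Real.sin d * ((q ^ (b : ℂ) - p ^ (b : ℂ)) / (q - p)).re +
      (ε * Real.cos d) * ((q ^ (b : ℂ) - p ^ (b : ℂ)) / (q - p)).im := by
    intro ε hε
    apply linear_diff hb _ hq hp hqp
    intro x hx
    have h1 : Real.cos d * |(x ^ ((b - 1 : ℝ) : ℂ)).im| <
        Real.sin d * (x ^ ((b - 1 : ℝ) : ℂ)).re := cone_cpow (by linarith) (by linarith) hx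
    have hpi := Real.pi_pos
    have h2 : 0 < Real.cos d := Real.cos_pos_of_mem_Ioo ⟨by
      rw [hd]
      nlinarith, by
      rw [hd]
      nlinarith⟩
    have h3 : |ε * Real.cos d * (x ^ ((b - 1 : ℝ) : ℂ)).im| =
        Real.cos d * |(x ^ ((b - 1 : ℝ) : ℂ)).im| := by
      rw [abs_mul, abs_mul, hε, one_mul, abs_of_pos h2]
    have h4 := neg_abs_le (ε * Real.cos d * (x ^ ((b - 1 : ℝ) : ℂ)).im)
    linarith
  have h1 := hA 1 (by norm_num)
  have h2 := hA (-1) (by norm_num)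
  show Real.cos d * |((q ^ (b : ℂ) - p ^ (b : ℂ)) / (q - p)).im| <
    Real.sin d * ((q ^ (b : ℂ) - p ^ (b : ℂ)) / (q - p)).re
  rcases abs_cases ((q ^ (b : ℂ) - p ^ (b : ℂ)) / (q - p)).im with ⟨h, _⟩ | ⟨h, _⟩
  · rw [h]
    linarith
  · rw [h]
    linarith

lemma cone_re {d : ℝ} (hc : 0 < Real.cos d) (hs : 0 < Real.sin d) {x : ℂ} (hx : x ∈ Cone d) :
    0 < x.re := by
  have h : Real.cos d * |x.im| < Real.sin d * x.re := hx
  have h1 : 0 ≤ Real.cos d * |x.im| := mul_nonneg hc.le (abs_nonneg _)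
  exact pos_of_mul_pos_right (lt_of_le_of_lt h1 h) hs.le

lemma cone_three {d : ℝ} (hc : 0 < Real.cos d) (hs : 0 < Real.sin d)
    (h3 : 3 * Real.sin d ^ 2 ≤ Real.cos d ^ 2) {x y w : ℂ}
    (hx : x ∈ Cone d) (hy : y ∈ Cone d) (hw : w ∈ Cone d) : 0 < (x / (y * w)).re := by
  have hx1 := cone_re hc hs hx
  have hy1 := cone_re hc hs hy
  have hw1 := cone_re hc hs hw
  have hx2 : Real.cos d * |x.im| < Real.sin d * x.re := hx
  have hy2 : Real.cos d * |y.im| < Real.sin d * y.re := hy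
  have hw2 : Real.cos d * |w.im| < Real.sin d * w.re := hw
  set t : ℝ := Real.sin d / Real.cos d with ht
  have ht0 : 0 < t := div_pos hs hc
  have ht3 : 3 * t ^ 2 ≤ 1 := by
    rw [ht, div_pow, ← mul_div_assoc, div_le_one (by positivity)]
    exact h3
  have key : ∀ v : ℂ, Real.cos d * |v.im| < Real.sin d * v.re → |v.im| < t * v.re := by
    intro v hv
    rw [ht, div_mul_eq_mul_div, lt_div_iff₀ hc]
    linarith
  have hx3 := key x hx2
  have hy3 := key y hy2
  have hw3 := key w hw2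
  have hne : y * w ≠ 0 := by
    apply mul_ne_zero
    · rintro rfl
      simp at hy1
    · rintro rfl
      simp at hw1
  rw [Complex.div_re, ← add_div]
  apply div_pos _ (Complex.normSq_pos.mpr hne)
  rw [Complex.mul_re, Complex.mul_im]
  have e : x.re * (y.re * w.re - y.im * w.im) + x.im * (y.re * w.im + y.im * w.re) =
      x.re * y.re * w.re - x.re * (y.im * w.im) + y.re * (x.im * w.im) + w.re * (x.im * y.im) := by
    ring
  rw [e]
  have b1 : |y.im * w.im| < t ^ 2 * (y.re * w.re) := by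
    rw [abs_mul]
    calc |y.im| * |w.im| < (t * y.re) * (t * w.re) :=
          mul_lt_mul'' hy3 hw3 (abs_nonneg _) (abs_nonneg _)
      _ = t ^ 2 * (y.re * w.re) := by ring
  have b2 : |x.im * w.im| < t ^ 2 * (x.re * w.re) := by
    rw [abs_mul]
    calc |x.im| * |w.im| < (t * x.re) * (t * w.re) :=
          mul_lt_mul'' hx3 hw3 (abs_nonneg _) (abs_nonneg _)
      _ = t ^ 2 * (x.re * w.re) := by ring
  have b3 : |x.im * y.im| < t ^ 2 * (x.re * y.re) := by
    rw [abs_mul]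
    calc |x.im| * |y.im| < (t * x.re) * (t * y.re) :=
          mul_lt_mul'' hx3 hy3 (abs_nonneg _) (abs_nonneg _)
      _ = t ^ 2 * (x.re * y.re) := by ring
  have c1 : x.re * (y.im * w.im) < x.re * (t ^ 2 * (y.re * w.re)) :=
    mul_lt_mul_of_pos_left (lt_of_le_of_lt (le_abs_self _) b1) hx1
  have c2 : y.re * (-(t ^ 2 * (x.re * w.re))) < y.re * (x.im * w.im) :=
    mul_lt_mul_of_pos_left (by linarith [neg_abs_le (x.im * w.im)]) hy1
  have c3 : w.re * (-(t ^ 2 * (x.re * y.re))) < w.re * (x.im * y.im) :=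
    mul_lt_mul_of_pos_left (by linarith [neg_abs_le (x.im * y.im)]) hw1
  have c4 : 0 < x.re * y.re * w.re := by positivity
  nlinarith

/-! ### The lens map -/

/-- The coordinate of the right half plane. -/
noncomputable def qf (z : ℂ) : ℂ := (z - 1) / (z + 1)

/-- The exterior map of a symmetric lens with two corners of exterior angle `b * pi`. -/
noncomputable def lens (b : ℝ) (z : ℂ) : ℂ :=
  (b : ℂ) * (1 + qf z ^ (b : ℂ)) / (1 - qf z ^ (b : ℂ))

lemma qf_re_nonneg {z : ℂ} (hz : 1 ≤ ‖z‖) (hz1 : z ≠ -1) : 0 ≤ (qf z).re := by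
  have h0 : z + 1 ≠ 0 := fun h => hz1 (eq_neg_of_add_eq_zero_left h)
  have h1 : 1 ≤ z.re * z.re + z.im * z.im := by
    have h1 : 1 ≤ ‖z‖ ^ 2 := by nlinarith
    rwa [← Complex.normSq_eq_norm_sq, Complex.normSq_apply] at h1
  have h2 : 0 < Complex.normSq (z + 1) := Complex.normSq_pos.mpr h0
  unfold qf
  rw [Complex.div_re, ← add_div]
  apply div_nonneg _ h2.le
  simp only [Complex.sub_re, Complex.add_re, Complex.one_re, Complex.sub_im, Complex.add_im,
    Complex.one_im, sub_zero, add_zero]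
  nlinarith

lemma qf_ne_one {z : ℂ} (hz1 : z ≠ -1) : qf z ≠ 1 := by
  have h0 : z + 1 ≠ 0 := fun h => hz1 (eq_neg_of_add_eq_zero_left h)
  intro h
  unfold qf at h
  rw [div_eq_one_iff_eq h0] at h
  have : (2 : ℂ) = 0 := by linear_combination -h
  norm_num at this

lemma z_of_qf {z : ℂ} (hz1 : z ≠ -1) : z = (1 + qf z) / (1 - qf z) := by
  have h0 : z + 1 ≠ 0 := fun h => hz1 (eq_neg_of_add_eq_zero_left h)
  have h1 : 1 - qf z ≠ 0 := sub_ne_zero.mpr (qf_ne_one hz1).symm
  rw [eq_div_iff h1]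
  unfold qf
  field_simp
  ring

lemma one_sub_cpow_ne {b : ℝ} (hb : 1 < b) (hb2 : b < 2) {q : ℂ} (hq : 0 ≤ q.re) (h1 : q ≠ 1) :
    1 - q ^ (b : ℂ) ≠ 0 := by
  have hpi := Real.pi_pos
  have h2 := cone_diff (q := 1) (p := q) hb hb2 (by simp) hq (Ne.symm h1)
  have h3 := cone_re (Real.cos_pos_of_mem_Ioo ⟨by nlinarith, by nlinarith⟩)
    (Real.sin_pos_of_pos_of_lt_pi (by nlinarith) (by nlinarith)) h2
  rw [Complex.one_cpow] at h3
  intro h
  rw [h, zero_div] at h3
  simp at h3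

lemma ext_ne_neg {z : ℂ} (hz : z ∈ HalfSum.Ext) : z ≠ -1 := by
  rintro rfl
  have hz1 : 1 < ‖(-1 : ℂ)‖ := hz
  norm_num at hz1

/-- The difference quotients of the lens map have positive real part. -/
lemma lens_quot {b : ℝ} (hb : 1 < b) (hb2 : b < 4 / 3) {z w : ℂ} (hz : z ∈ HalfSum.Ext)
    (hw : 1 ≤ ‖w‖) (hw1 : w ≠ -1) (hzw : w ≠ z) :
    0 < ((lens b z - lens b w) / (z - w)).re := by
  have hpi := Real.pi_pos
  set d : ℝ := (b - 1) * (Real.pi / 2) with hd
  have hd0 : 0 < d := by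
    rw [hd]
    apply mul_pos <;> linarith
  have hd1 : d < Real.pi / 6 := by
    rw [hd]
    nlinarith
  have hc : 0 < Real.cos d := Real.cos_pos_of_mem_Ioo ⟨by linarith, by linarith⟩
  have hs : 0 < Real.sin d := Real.sin_pos_of_pos_of_lt_pi hd0 (by linarith)
  have hs2 : Real.sin d < 1 / 2 := by
    rw [← Real.sin_pi_div_six]
    exact Real.sin_lt_sin_of_lt_of_le_pi_div_two (by linarith) (by linarith) hd1
  have h3 : 3 * Real.sin d ^ 2 ≤ Real.cos d ^ 2 := by
    have := Real.sin_sq_add_cos_sq d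
    nlinarith
  have hz1 := ext_ne_neg hz
  have hq : 0 < (qf z).re := q_re_pos hz
  have hp := qf_re_nonneg hw hw1
  have hq1 := qf_ne_one hz1
  have hp1 := qf_ne_one hw1
  have hqp : qf z ≠ qf w := by
    intro h
    apply hzw
    rw [z_of_qf hw1, z_of_qf hz1, h]
  have c1 := cone_diff hb (by linarith) hq hp hqp
  have c2 := cone_diff (q := 1) hb (by linarith) (by simp) hq.le (Ne.symm hq1)
  have c3 := cone_diff (q := 1) hb (by linarith) (by simp) hp (Ne.symm hp1)
  have n2 := one_sub_cpow_ne hb (by linarith) hq.le hq1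
  have n3 := one_sub_cpow_ne hb (by linarith) hp hp1
  have m2 : 1 - qf z ≠ 0 := sub_ne_zero.mpr hq1.symm
  have m3 : 1 - qf w ≠ 0 := sub_ne_zero.mpr hp1.symm
  have m1 : qf z - qf w ≠ 0 := sub_ne_zero.mpr hqp
  rw [Complex.one_cpow] at c2 c3
  have key := cone_three hc hs h3 c1 c2 c3
  have e : (lens b z - lens b w) / (z - w) = (b : ℂ) *
      ((qf z ^ (b : ℂ) - qf w ^ (b : ℂ)) / (qf z - qf w) /
        ((1 - qf z ^ (b : ℂ)) / (1 - qf z) * ((1 - qf w ^ (b : ℂ)) / (1 - qf w)))) := by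
    have e1 : z - w = 2 * (qf z - qf w) / ((1 - qf z) * (1 - qf w)) := by
      nth_rewrite 1 [z_of_qf hz1, z_of_qf hw1]
      field_simp
      ring
    have e2 : lens b z - lens b w = 2 * (b : ℂ) * (qf z ^ (b : ℂ) - qf w ^ (b : ℂ)) /
        ((1 - qf z ^ (b : ℂ)) * (1 - qf w ^ (b : ℂ))) := by
      unfold lens
      field_simp
      ring
    rw [e1, e2]
    field_simp
  rw [e, Complex.re_ofReal_mul]
  exact mul_pos (by linarith) key

lemma lens_inj {b : ℝ} (hb : 1 < b) (hb2 : b < 4 / 3) : InjOn (lens b) HalfSum.Ext := by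
  intro z hz w hw h
  by_contra hne
  have hw1 : 1 < ‖w‖ := hw
  have := lens_quot hb hb2 hz hw1.le (ext_ne_neg hw) (Ne.symm hne)
  rw [h, sub_self, zero_div] at this
  simp at this

lemma lens_diff {b : ℝ} (hb : 1 < b) (hb2 : b < 2) : DifferentiableOn ℂ (lens b) HalfSum.Ext := by
  intro z hz
  apply DifferentiableAt.differentiableWithinAt
  have h0 := (ext_ne hz).2.2
  have hz1 := ext_ne_neg hz
  have hq : 0 < (qf z).re := q_re_pos hz
  have h1 : DifferentiableAt ℂ qf z := by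
    unfold qf
    apply DifferentiableAt.div
    · fun_prop
    · fun_prop
    · exact h0
  have h2 : DifferentiableAt ℂ (fun z => qf z ^ (b : ℂ)) z := by
    apply h1.cpow_const
    exact Or.inl hq
  unfold lens
  exact ((h2.const_add 1).const_mul (b : ℂ)).div (h2.const_sub 1)
    (one_sub_cpow_ne hb hb2 hq.le (qf_ne_one hz1))

end Pool.Agent.Y313.CX
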