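import Mathlib
import Pool.Agent.Y313.CX.Lens

open Complex Set Filter Topology

namespace Pool.Agent.Y313.CX

open Pool.Agent.Results.MP_308aa3_an

open Pool.Agent.Results.MP_308aa3_an.HalfSum (IsSigma IsConvexSigma laurent_of_tendsto ext_ne
  q_re_pos ext_open ext_mem normSq_gt)

/-! ### Behaviour at infinity -/

lemma kappa_bound {x : ℂ} (hx0 : x ≠ 0) (hx : ‖x‖ ≤ 1 / 2) :
    ‖(1 + exp x) / (1 - exp x) + 2 / x‖ ≤ 4 * ‖x‖ := by
  have hn : 0 < ‖x‖ := norm_pos_iff.mpr hx0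
  have h1 : ‖exp x - (1 + x + x ^ 2 / 2)‖ ≤ ‖x‖ ^ 3 * (2 / 9) := by
    have h := Complex.exp_bound (x := x) (by linarith) (n := 3) (by norm_num)
    have e1 : ∑ m ∈ Finset.range 3, x ^ m / (m.factorial : ℂ) = 1 + x + x ^ 2 / 2 := by
      simp [Finset.sum_range_succ, Nat.factorial]
    have e2 : ((Nat.succ 3 : ℕ) : ℝ) * (((Nat.factorial 3 : ℕ) : ℝ) * ((3 : ℕ) : ℝ))⁻¹ = 2 / 9 := by
      norm_num [Nat.factorial]
    rw [e1, e2] at h
    exact h
  have h2 : ‖x‖ / 2 ≤ ‖1 - exp x‖ := by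
    have h3 := Complex.norm_exp_sub_one_sub_id_le (x := x) (by linarith)
    have h4 : ‖x‖ ≤ ‖1 - exp x‖ + ‖exp x - 1 - x‖ := by
      have : x = -((1 - exp x) + (exp x - 1 - x)) := by ring
      calc ‖x‖ = ‖(1 - exp x) + (exp x - 1 - x)‖ := by
            nth_rewrite 1 [this]
            rw [norm_neg]
        _ ≤ _ := norm_add_le _ _
    nlinarith
  have hd : 1 - exp x ≠ 0 := by
    intro h
    rw [h, norm_zero] at h2
    linarith
  have e : (1 + exp x) / (1 - exp x) + 2 / x =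
      (x ^ 3 / 2 + (x - 2) * (exp x - (1 + x + x ^ 2 / 2))) / (x * (1 - exp x)) := by
    field_simp
    ring
  rw [e, norm_div, norm_mul, div_le_iff₀ (by positivity)]
  have h5 : ‖x ^ 3 / 2 + (x - 2) * (exp x - (1 + x + x ^ 2 / 2))‖ ≤ 2 * ‖x‖ ^ 3 := by
    have h6 : ‖x - 2‖ ≤ 3 := by
      calc ‖x - 2‖ ≤ ‖x‖ + ‖(2 : ℂ)‖ := norm_sub_le _ _
        _ ≤ 3 := by
          rw [Complex.norm_ofNat]
          linarith
    calc ‖x ^ 3 / 2 + (x - 2) * (exp x - (1 + x + x ^ 2 / 2))‖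
        ≤ ‖x ^ 3 / 2‖ + ‖(x - 2) * (exp x - (1 + x + x ^ 2 / 2))‖ := norm_add_le _ _
      _ ≤ ‖x‖ ^ 3 / 2 + 3 * (‖x‖ ^ 3 * (2 / 9)) := by
          rw [norm_div, norm_pow, Complex.norm_ofNat, norm_mul]
          gcongr
      _ ≤ 2 * ‖x‖ ^ 3 := by nlinarith [pow_pos hn 3]
  refine h5.trans ?_
  nlinarith [mul_le_mul_of_nonneg_left h2 (sq_nonneg ‖x‖)]

lemma qf_tendsto : Tendsto qf (cocompact ℂ) (𝓝 1) := by
  have h2 : Tendsto (fun z : ℂ => 1 - 2 * (z + 1)⁻¹) (cocompact ℂ) (𝓝 (1 - 2 * 0)) := by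
    apply Tendsto.const_sub
    apply Tendsto.const_mul
    have h3 : Tendsto (fun z : ℂ => z + 1) (cocompact ℂ) (cocompact ℂ) :=
      (Homeomorph.addRight (1 : ℂ)).isClosedEmbedding.tendsto_cocompact
    exact (tendsto_inv₀_cobounded.comp (by rw [Metric.cobounded_eq_cocompact]; exact h3))
  rw [mul_zero, sub_zero] at h2
  refine h2.congr' ?_
  have h4 : ∀ᶠ z : ℂ in cocompact ℂ, z ≠ -1 := by
    have := (isCompact_singleton (x := (-1 : ℂ))).compl_mem_cocompact
    filter_upwards [this] with z hz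
    exact hz
  filter_upwards [h4] with z hz
  have h5 : z + 1 ≠ 0 := fun h => hz (eq_neg_of_add_eq_zero_left h)
  unfold qf
  field_simp
  ring

lemma lens_tendsto {b : ℝ} (hb : 1 < b) :
    Tendsto (fun z => lens b z - z) (cocompact ℂ) (𝓝 0) := by
  have hb0 : (0 : ℝ) < b := by linarith
  have h1 : Tendsto (fun z => log (qf z)) (cocompact ℂ) (𝓝 0) := by
    have h2 : Tendsto log (𝓝 1) (𝓝 (log 1)) := continuousAt_clog (by simp)
    rw [Complex.log_one] at h2
    exact h2.comp qf_tendsto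
  have h2 : Tendsto (fun z => ‖log (qf z)‖) (cocompact ℂ) (𝓝 0) := by
    simpa using h1.norm
  have h3 : ∀ᶠ z in cocompact ℂ, ‖log (qf z)‖ < 1 / (2 * b) :=
    h2.eventually_lt_const (by positivity)
  have h4 : Tendsto (fun z => (4 * b ^ 2 + 4) * ‖log (qf z)‖) (cocompact ℂ) (𝓝 0) := by
    simpa using h2.const_mul (4 * b ^ 2 + 4)
  apply squeeze_zero_norm' _ h4
  filter_upwards [h3, ext_mem] with z hz hE
  have hz1 := ext_ne_neg hE
  have hq : 0 < (qf z).re := q_re_pos hE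
  have hq0 : qf z ≠ 0 := by
    intro h
    rw [h] at hq
    simp at hq
  set x : ℂ := log (qf z) with hx
  have hex : exp x = qf z := Complex.exp_log hq0
  have hx0 : x ≠ 0 := by
    intro h
    apply qf_ne_one hz1
    rw [← hex, h, Complex.exp_zero]
  have hbx : exp ((b : ℂ) * x) = qf z ^ (b : ℂ) := by
    rw [Complex.cpow_def_of_ne_zero hq0, mul_comm]
  have hbx0 : (b : ℂ) * x ≠ 0 := mul_ne_zero (by exact_mod_cast hb0.ne') hx0
  have hbn : ‖(b : ℂ) * x‖ = b * ‖x‖ := by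
    rw [norm_mul, Complex.norm_real, Real.norm_of_nonneg hb0.le]
  have hs1 : b * ‖x‖ ≤ 1 / 2 := by
    have := mul_lt_mul_of_pos_left hz hb0
    have e : b * (1 / (2 * b)) = 1 / 2 := by field_simp
    linarith
  have hs2 : ‖x‖ ≤ 1 / 2 := by
    have : ‖x‖ ≤ b * ‖x‖ := by nlinarith [norm_nonneg x]
    linarith
  have k1 := kappa_bound hx0 hs2
  have k2 := kappa_bound hbx0 (by rw [hbn]; exact hs1)
  have e : lens b z - z = (b : ℂ) * ((1 + exp ((b : ℂ) * x)) / (1 - exp ((b : ℂ) * x)) +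
      2 / ((b : ℂ) * x)) - ((1 + exp x) / (1 - exp x) + 2 / x) := by
    nth_rewrite 2 [z_of_qf hz1]
    unfold lens
    rw [← hbx, ← hex]
    have hb' : (b : ℂ) ≠ 0 := by exact_mod_cast hb0.ne'
    have e2 : (b : ℂ) * (2 / ((b : ℂ) * x)) = 2 / x := by
      field_simp
    rw [mul_add (b : ℂ) ((1 + exp ((b : ℂ) * x)) / (1 - exp ((b : ℂ) * x))), e2]
    ring
  rw [e]
  calc ‖(b : ℂ) * ((1 + exp ((b : ℂ) * x)) / (1 - exp ((b : ℂ) * x)) +
      2 / ((b : ℂ) * x)) - ((1 + exp x) / (1 - exp x) + 2 / x)‖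
      ≤ ‖(b : ℂ) * ((1 + exp ((b : ℂ) * x)) / (1 - exp ((b : ℂ) * x)) +
      2 / ((b : ℂ) * x))‖ + ‖(1 + exp x) / (1 - exp x) + 2 / x‖ := norm_sub_le _ _
    _ ≤ b * (4 * (b * ‖x‖)) + 4 * ‖x‖ := by
        rw [norm_mul, Complex.norm_real, Real.norm_of_nonneg hb0.le]
        rw [hbn] at k2
        gcongr
    _ = (4 * b ^ 2 + 4) * ‖x‖ := by ring

/-! ### The complement -/

/-- The lens: intersection of two closed discs. -/
def LensSet (c T : ℝ) : Set ℂ := {w | w.re ^ 2 + w.im ^ 2 + T * |w.im| ≤ c}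

lemma lensSet_convex {c T : ℝ} (hT : 0 ≤ T) : Convex ℝ (LensSet c T) := by
  intro v hv w hw a b ha hb hab
  have h1 : v.re ^ 2 + v.im ^ 2 + T * |v.im| ≤ c := hv
  have h2 : w.re ^ 2 + w.im ^ 2 + T * |w.im| ≤ c := hw
  show (a • v + b • w).re ^ 2 + (a • v + b • w).im ^ 2 + T * |(a • v + b • w).im| ≤ c
  simp only [Complex.add_re, Complex.add_im, Complex.smul_re, Complex.smul_im, smul_eq_mul]
  have h3 : |a * v.im + b * w.im| ≤ a * |v.im| + b * |w.im| := by
    refine (abs_add_le _ _).trans ?_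
    rw [abs_mul, abs_mul, abs_of_nonneg ha, abs_of_nonneg hb]
  have h4 : ∀ x y : ℝ, (a * x + b * y) ^ 2 ≤ a * x ^ 2 + b * y ^ 2 := by
    intro x y
    have : a * x ^ 2 + b * y ^ 2 - (a * x + b * y) ^ 2 = a * b * (x - y) ^ 2 := by
      have hb' : b = 1 - a := by linarith
      subst hb'
      ring
    nlinarith [mul_nonneg (mul_nonneg ha hb) (sq_nonneg (x - y))]
  have h5 := h4 v.re w.re
  have h6 := h4 v.im w.im
  have h7 := mul_le_mul_of_nonneg_left h1 ha
  have h8 := mul_le_mul_of_nonneg_left h2 hb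
  have h9 : a * c + b * c = c := by rw [← add_mul, hab, one_mul]
  have h10 := mul_le_mul_of_nonneg_left h3 hT
  nlinarith

lemma key_id {b : ℝ} {w u : ℂ} (h : w - b = u * (w + b)) :
    w.re ^ 2 + w.im ^ 2 - b ^ 2 = ((w.re + b) ^ 2 + w.im ^ 2) * u.re ∧
      2 * b * w.im = ((w.re + b) ^ 2 + w.im ^ 2) * u.im := by
  have h1 := congrArg Complex.re h
  have h2 := congrArg Complex.im h
  simp only [Complex.sub_re, Complex.sub_im, Complex.add_re, Complex.add_im, Complex.mul_re,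
    Complex.mul_im, Complex.ofReal_re, Complex.ofReal_im, sub_zero, add_zero] at h1 h2
  constructor
  · linear_combination (w.re + b) * h1 + w.im * h2
  · linear_combination (w.re + b) * h2 - w.im * h1

lemma sector_of_pow {b : ℝ} (hb : 1 < b) (hb2 : b < 2) {q : ℂ} (hq : 0 < q.re) :
    0 < Real.cos ((b - 1) * (Real.pi / 2)) * (q ^ (b : ℂ)).re +
      Real.sin ((b - 1) * (Real.pi / 2)) * |(q ^ (b : ℂ)).im| := by
  have hq0 : q ≠ 0 := by
    rintro rfl
    simp at hq
  have hn : 0 < ‖q‖ := norm_pos_iff.mpr hq0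
  have hns : 0 < ‖q‖ ^ b := Real.rpow_pos_of_pos hn b
  have harg : |q.arg| < Real.pi / 2 := Complex.abs_arg_lt_pi_div_two_iff.mpr (Or.inl hq)
  have hpi := Real.pi_pos
  have hb0 : 0 < b := by linarith
  rw [Complex.cpow_ofReal_re, Complex.cpow_ofReal_im, abs_mul, abs_of_pos hns]
  have h1 : |Real.sin (q.arg * b)| = Real.sin (|q.arg| * b) := by
    rw [Real.abs_sin_eq_sin_abs_of_abs_le_pi]
    · rw [abs_mul, abs_of_pos hb0]
    · rw [abs_mul, abs_of_pos hb0]
      nlinarith [abs_nonneg q.arg]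
  have h2 : Real.cos (q.arg * b) = Real.cos (|q.arg| * b) := by
    rw [← Real.cos_abs, abs_mul, abs_of_pos hb0]
  rw [h1, h2]
  have h3 : 0 < Real.cos (|q.arg| * b - (b - 1) * (Real.pi / 2)) := by
    apply Real.cos_pos_of_mem_Ioo
    constructor
    · nlinarith [abs_nonneg q.arg]
    · nlinarith [abs_nonneg q.arg]
  rw [Real.cos_sub] at h3
  nlinarith

lemma arg_of_sector {b : ℝ} (hb : 1 < b) (hb2 : b < 2) {u : ℂ} (hu0 : u ≠ 0)
    (hu : 0 < Real.cos ((b - 1) * (Real.pi / 2)) * u.re +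
      Real.sin ((b - 1) * (Real.pi / 2)) * |u.im|) : |u.arg| < b * (Real.pi / 2) := by
  by_contra hcon
  push Not at hcon
  have hpi := Real.pi_pos
  have hn : 0 < ‖u‖ := norm_pos_iff.mpr hu0
  have h1 := Complex.abs_arg_le_pi u
  have h2 : Real.cos (|u.arg| - (b - 1) * (Real.pi / 2)) ≤ 0 := by
    apply Real.cos_nonpos_of_pi_div_two_le_of_le
    · linarith
    · nlinarith
  rw [Real.cos_sub, Real.cos_abs, ← Real.abs_sin_eq_sin_abs_of_abs_le_pi h1] at h2
  have e1 : u.re = ‖u‖ * Real.cos u.arg := by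
    rw [Complex.norm_mul_cos_arg]
  have e2 : |u.im| = ‖u‖ * |Real.sin u.arg| := by
    have e3 : |‖u‖ * Real.sin u.arg| = ‖u‖ * |Real.sin u.arg| := by
      rw [abs_mul, abs_of_pos hn]
    rw [← e3, Complex.norm_mul_sin_arg]
  rw [e1, e2] at hu
  nlinarith

/-- Every point of the right half plane other than `1` is the coordinate of an exterior point. -/
lemma qf_surj {q : ℂ} (hq : 0 < q.re) (h1 : q ≠ 1) :
    (1 + q) / (1 - q) ∈ HalfSum.Ext ∧ qf ((1 + q) / (1 - q)) = q := by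
  have h2 : 1 - q ≠ 0 := sub_ne_zero.mpr h1.symm
  have hE : (1 + q) / (1 - q) ∈ HalfSum.Ext := by
    show 1 < ‖(1 + q) / (1 - q)‖
    rw [norm_div, one_lt_div (norm_pos_iff.mpr h2)]
    apply lt_of_pow_lt_pow_left₀ 2 (norm_nonneg _)
    rw [← Complex.normSq_eq_norm_sq, ← Complex.normSq_eq_norm_sq, Complex.normSq_apply,
      Complex.normSq_apply]
    simp only [Complex.sub_re, Complex.add_re, Complex.one_re, Complex.sub_im, Complex.add_im,
      Complex.one_im]
    nlinarith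
  refine ⟨hE, ?_⟩
  have h4 : (1 + q) / (1 - q) + 1 ≠ 0 := (ext_ne hE).2.2
  unfold qf
  rw [div_eq_iff h4]
  field_simp
  ring

lemma lens_key {b : ℝ} (hb : 1 < b) (hb2 : b < 2) {z : ℂ} (hz : z ∈ HalfSum.Ext) :
    lens b z - b = qf z ^ (b : ℂ) * (lens b z + b) := by
  have h1 := one_sub_cpow_ne hb hb2 (q_re_pos hz).le (qf_ne_one (ext_ne_neg hz))
  have h1' : 1 - qf z ^ (b : ℂ) ≠ 0 := h1
  unfold lens
  field_simp
  ring

lemma lens_compl {b : ℝ} (hb : 1 < b) (hb2 : b < 2) :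
    (lens b '' HalfSum.Ext)ᶜ = LensSet (b ^ 2) (2 * b * Real.tan ((b - 1) * (Real.pi / 2))) := by
  have hpi := Real.pi_pos
  have hb0 : 0 < b := by linarith
  have hd0 : 0 < (b - 1) * (Real.pi / 2) := mul_pos (by linarith) (by linarith)
  have hd1 : (b - 1) * (Real.pi / 2) < Real.pi / 2 := by nlinarith
  have harg := @arg_of_sector b hb hb2
  have hsec := @sector_of_pow b hb hb2
  set d : ℝ := (b - 1) * (Real.pi / 2) with hd
  have hc : 0 < Real.cos d := Real.cos_pos_of_mem_Ioo ⟨by linarith, by linarith⟩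
  have hs : 0 < Real.sin d := Real.sin_pos_of_pos_of_lt_pi hd0 (by linarith)
  have ht : Real.tan d * Real.cos d = Real.sin d := Real.tan_mul_cos hc.ne'
  have ht0 : 0 < Real.tan d := Real.tan_pos_of_pos_of_lt_pi_div_two hd0 hd1
  have rel : ∀ w u : ℂ, w - b = u * (w + b) →
      Real.cos d * (w.re ^ 2 + w.im ^ 2 + 2 * b * Real.tan d * |w.im| - b ^ 2) =
        ((w.re + b) ^ 2 + w.im ^ 2) * (Real.cos d * u.re + Real.sin d * |u.im|) := by
    intro w u h
    obtain ⟨k1, k2⟩ := key_id h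
    have hD : 0 ≤ (w.re + b) ^ 2 + w.im ^ 2 := by positivity
    have k3 : 2 * b * |w.im| = ((w.re + b) ^ 2 + w.im ^ 2) * |u.im| := by
      have e4 : |2 * b| = 2 * b := abs_of_pos (by linarith)
      rw [← abs_of_nonneg hD, ← abs_mul, ← k2, abs_mul (2 * b), e4]
    linear_combination Real.cos d * k1 + 2 * b * |w.im| * ht + Real.sin d * k3
  ext w
  constructor
  · intro hw
    by_contra hL
    apply hw
    have hL' : b ^ 2 < w.re ^ 2 + w.im ^ 2 + 2 * b * Real.tan d * |w.im| := not_le.mp hL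
    have hw0 : w + b ≠ 0 := by
      intro h
      have : w = -(b : ℂ) := eq_neg_of_add_eq_zero_left h
      rw [this] at hL'
      simp at hL'
    set u : ℂ := (w - b) / (w + b) with hu
    have huw : w - b = u * (w + b) := by
      rw [hu, div_mul_cancel₀ _ hw0]
    have k := rel w u huw
    have hD : 0 ≤ (w.re + b) ^ 2 + w.im ^ 2 := by positivity
    have k5 : 0 < Real.cos d * u.re + Real.sin d * |u.im| := by
      apply pos_of_mul_pos_right _ hD
      rw [← k]
      exact mul_pos hc (by linarith)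
    have hu0 : u ≠ 0 := by
      rintro h
      rw [h] at k5
      simp at k5
    have ha := harg hu0 k5
    set q : ℂ := exp (log u / b) with hq
    have him : (log u / b).im = u.arg / b := by
      rw [Complex.div_ofReal_im, Complex.log_im]
    have ha2 : |u.arg / b| < Real.pi / 2 := by
      rw [abs_div, abs_of_pos hb0, div_lt_iff₀ hb0]
      linarith
    have ha3 := abs_lt.mp ha2
    have hqre : 0 < q.re := by
      rw [hq, Complex.exp_re, him]
      exact mul_pos (Real.exp_pos _) (Real.cos_pos_of_mem_Ioo ⟨by linarith [ha3.1], ha3.2⟩)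
    have hlog : log q = log u / b := by
      rw [hq]
      apply Complex.log_exp
      · rw [him]
        linarith [ha3.1]
      · rw [him]
        linarith [ha3.2]
    have hqb : q ^ (b : ℂ) = u := by
      rw [Complex.cpow_def_of_ne_zero (Complex.exp_ne_zero _), hlog,
        div_mul_cancel₀ _ (by exact_mod_cast hb0.ne'), Complex.exp_log hu0]
    have hq1 : q ≠ 1 := by
      intro h
      rw [h, Complex.one_cpow] at hqb
      rw [← hqb] at huw
      have h2 : (b : ℂ) = 0 := by linear_combination (-1 / 2 : ℂ) * huw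
      exact hb0.ne' (by exact_mod_cast h2)
    obtain ⟨hE, hqf⟩ := qf_surj hqre hq1
    refine ⟨_, hE, ?_⟩
    have h3 := one_sub_cpow_ne hb hb2 hqre.le hq1
    unfold lens
    rw [hqf, div_eq_iff h3, hqb]
    linear_combination (-1 : ℂ) * huw
  · rintro hw ⟨z, hz, rfl⟩
    have hL : (lens b z).re ^ 2 + (lens b z).im ^ 2 + 2 * b * Real.tan d * |(lens b z).im| ≤
        b ^ 2 := hw
    have k := rel _ _ (lens_key hb hb2 hz)
    have k5 : 0 < Real.cos d * (qf z ^ (b : ℂ)).re + Real.sin d * |(qf z ^ (b : ℂ)).im| :=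
      hsec (q_re_pos hz)
    have hD : 0 ≤ ((lens b z).re + b) ^ 2 + (lens b z).im ^ 2 := by positivity
    have hD2 : 0 < ((lens b z).re + b) ^ 2 + (lens b z).im ^ 2 := by
      rcases hD.eq_or_lt with h | h
      · exfalso
        have h1 : (lens b z).re + b = 0 := by
          nlinarith [sq_nonneg ((lens b z).re + b), sq_nonneg (lens b z).im]
        have h2 : (lens b z).im = 0 := by
          nlinarith [sq_nonneg ((lens b z).re + b), sq_nonneg (lens b z).im]
        have h3 : lens b z + b = 0 := by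
          apply Complex.ext
          · rw [Complex.add_re, Complex.ofReal_re, h1, Complex.zero_re]
          · rw [Complex.add_im, Complex.ofReal_im, h2, Complex.zero_im, add_zero]
        have h4 := lens_key hb hb2 hz
        rw [h3, mul_zero] at h4
        have h5 : (b : ℂ) = 0 := by linear_combination (1 / 2 : ℂ) * (h3 - h4)
        exact hb0.ne' (by exact_mod_cast h5)
      · exact h
    have h6 := mul_pos hD2 k5
    rw [← k] at h6
    have h7 := pos_of_mul_pos_right h6 hc.le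
    linarith

lemma lens_convexSigma {b : ℝ} (hb : 1 < b) (hb2 : b < 4 / 3) : IsConvexSigma (lens b) := by
  have hb3 : b < 2 := by linarith
  have hpi := Real.pi_pos
  refine ⟨⟨lens_diff hb hb3, lens_inj hb hb2,
    laurent_of_tendsto (lens_diff hb hb3) (lens_tendsto hb)⟩, ?_⟩
  rw [lens_compl hb hb3]
  apply lensSet_convex
  have : 0 < Real.tan ((b - 1) * (Real.pi / 2)) :=
    Real.tan_pos_of_pos_of_lt_pi_div_two (mul_pos (by linarith) (by linarith)) (by nlinarith)
  positivity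

end Pool.Agent.Y313.CX
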