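import Mathlib
import Pool.Agent.Y313.CX.Lens2

open Complex Set Filter Topology

namespace Pool.Agent.Y313.CX

open Pool.Agent.Results.MP_308aa3_an

open Pool.Agent.Results.MP_308aa3_an.HalfSum (IsSigma IsConvexSigma laurent_of_tendsto ext_ne
  q_re_pos ext_open ext_mem normSq_gt)

/-! ### Two limits -/

lemma lim_aux {b m e M y0 : ℝ} (hb : 1 < b) (hy0 : 0 < y0)
    (h : ∀ y : ℝ, 0 < y → y < y0 → m * y + e * y ^ b ≤ M * y ^ 2) : m ≤ 0 := by
  have h1 : Tendsto (fun y : ℝ => M * y - e * y ^ (b - 1)) (𝓝[>] 0) (𝓝 0) := by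
    have h2 : ContinuousAt (fun y : ℝ => M * y - e * y ^ (b - 1)) 0 := by
      apply ContinuousAt.sub
      · fun_prop
      · exact continuousAt_const.mul (Real.continuousAt_rpow_const 0 (b - 1) (Or.inr (by linarith)))
    have h3 : M * 0 - e * (0 : ℝ) ^ (b - 1) = 0 := by
      rw [Real.zero_rpow (by linarith)]
      ring
    have h4 : Tendsto (fun y : ℝ => M * y - e * y ^ (b - 1)) (𝓝 0)
      (𝓝 (M * 0 - e * (0 : ℝ) ^ (b - 1))) := h2
    rw [h3] at h4
    exact h4.mono_left nhdsWithin_le_nhds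
  apply ge_of_tendsto h1
  filter_upwards [Ioo_mem_nhdsGT hy0] with y hy
  have h5 := h y hy.1 hy.2
  have h6 : y ^ b = y ^ (b - 1) * y := by
    rw [← Real.rpow_add_one hy.1.ne']
    ring_nf
  rw [h6] at h5
  have h7 : (m - (M * y - e * y ^ (b - 1))) * y ≤ 0 := by nlinarith
  have h8 := nonpos_of_mul_nonpos_left h7 hy.1
  linarith

lemma lim_aux2 {b e M y0 : ℝ} (hb : b < 2) (hy0 : 0 < y0)
    (h : ∀ y : ℝ, 0 < y → y < y0 → e * y ^ b ≤ M * y ^ 2) : e ≤ 0 := by
  have h1 : Tendsto (fun y : ℝ => M * y ^ (2 - b)) (𝓝[>] 0) (𝓝 0) := by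
    have h2 : ContinuousAt (fun y : ℝ => M * y ^ (2 - b)) 0 :=
      continuousAt_const.mul (Real.continuousAt_rpow_const 0 (2 - b) (Or.inr (by linarith)))
    have h3 : M * (0 : ℝ) ^ (2 - b) = 0 := by
      rw [Real.zero_rpow (by linarith)]
      ring
    have h4 : Tendsto (fun y : ℝ => M * y ^ (2 - b)) (𝓝 0) (𝓝 (M * (0 : ℝ) ^ (2 - b))) := h2
    rw [h3] at h4
    exact h4.mono_left nhdsWithin_le_nhds
  apply ge_of_tendsto h1
  filter_upwards [Ioo_mem_nhdsGT hy0] with y hy
  have h5 := h y hy.1 hy.2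
  have h6 : y ^ 2 = y ^ (2 - b) * y ^ b := by
    rw [← Real.rpow_add hy.1, ← Real.rpow_natCast]
    congr 1
    push_cast
    ring
  rw [h6] at h5
  have h7 : 0 < y ^ b := Real.rpow_pos_of_pos hy.1 b
  have h8 : (e - M * y ^ (2 - b)) * y ^ b ≤ 0 := by nlinarith
  have h9 := nonpos_of_mul_nonpos_left h8 h7
  linarith

/-! ### Supporting lines -/

lemma support {K : Set ℂ} (hK : Convex ℝ K) (hKc : IsClosed K) (hne : K.Nonempty)
    {x : ℕ → ℂ} {x0 : ℂ} (hx : ∀ n, x n ∉ K) (hlim : Tendsto x atTop (𝓝 x0)) :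
    ∃ A B : ℝ, (A ≠ 0 ∨ B ≠ 0) ∧ ∀ k ∈ K, A * (k - x0).re + B * (k - x0).im ≤ 0 := by
  have h1 : ∀ n, ∃ v : ℂ, ‖v‖ = 1 ∧ ∀ k ∈ K, v.re * (k - x n).re + v.im * (k - x n).im ≤ 0 := by
    intro n
    obtain ⟨f, u, hf1, hf2⟩ := geometric_hahn_banach_closed_point hK hKc (hx n)
    have hfv : ∀ y : ℂ, f y = y.re * f 1 + y.im * f I := by
      intro y
      have : y = y.re • (1 : ℂ) + y.im • I := by
        simp only [Complex.real_smul, mul_one]
        exact (Complex.re_add_im y).symm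
      nth_rewrite 1 [this]
      rw [map_add, map_smul, map_smul, smul_eq_mul, smul_eq_mul]
    set w : ℂ := ⟨f 1, f I⟩ with hw
    have hw0 : w ≠ 0 := by
      intro h
      obtain ⟨k, hk⟩ := hne
      have a1 := hf1 k hk
      have r1 := congrArg Complex.re h
      have r2 := congrArg Complex.im h
      simp only [hw, Complex.zero_re, Complex.zero_im] at r1 r2
      rw [hfv, r1, r2] at a1 hf2
      linarith
    have hwn : 0 < ‖w‖ := norm_pos_iff.mpr hw0
    refine ⟨((‖w‖⁻¹ : ℝ) : ℂ) * w, ?_, ?_⟩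
    · rw [norm_mul, Complex.norm_real, norm_inv, norm_norm, inv_mul_cancel₀ hwn.ne']
    · intro k hk
      have a1 := hf1 k hk
      have a2 : f (k - x n) < 0 := by
        rw [map_sub]
        linarith
      rw [hfv] at a2
      rw [Complex.re_ofReal_mul, Complex.im_ofReal_mul]
      have a3 : ‖w‖⁻¹ * ((k - x n).re * f 1 + (k - x n).im * f I) ≤ 0 :=
        mul_nonpos_of_nonneg_of_nonpos (by positivity) a2.le
      have e1 : w.re = f 1 := rfl
      have e2 : w.im = f I := rfl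
      rw [e1, e2]
      linarith
  choose v hv1 hv2 using h1
  obtain ⟨a, ha, φ, hφ, hφl⟩ := (isCompact_sphere (0 : ℂ) 1).tendsto_subseq (x := v)
    (fun n => by rw [mem_sphere_zero_iff_norm, hv1])
  refine ⟨a.re, a.im, ?_, ?_⟩
  · by_contra hcon
    push Not at hcon
    rw [mem_sphere_zero_iff_norm] at ha
    have : a = 0 := Complex.ext hcon.1 hcon.2
    rw [this] at ha
    simp at ha
  · intro k hk
    have l1 : Tendsto (fun n => k - x (φ n)) atTop (𝓝 (k - x0)) :=
      tendsto_const_nhds.sub (hlim.comp hφ.tendsto_atTop)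
    have l2 : Tendsto (fun n => (v (φ n)).re * (k - x (φ n)).re + (v (φ n)).im * (k - x (φ n)).im)
        atTop (𝓝 (a.re * (k - x0).re + a.im * (k - x0).im)) := by
      apply Tendsto.add
      · exact ((Complex.continuous_re.tendsto a).comp hφl).mul
          ((Complex.continuous_re.tendsto _).comp l1)
      · exact ((Complex.continuous_im.tendsto a).comp hφl).mul
          ((Complex.continuous_im.tendsto _).comp l1)
    exact le_of_tendsto' l2 (fun n => hv2 (φ n) k hk)

/-- The image of the exterior domain under an injective analytic map is open. -/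
lemma image_open {H : ℂ → ℂ} (hd : DifferentiableOn ℂ H HalfSum.Ext) (hi : InjOn H HalfSum.Ext) :
    IsOpen (H '' HalfSum.Ext) := by
  rw [isOpen_iff_mem_nhds]
  rintro _ ⟨z, hz, rfl⟩
  have hnz := ext_open.mem_nhds hz
  have ha : AnalyticAt ℂ H z := hd.analyticAt hnz
  rcases ha.eventually_constant_or_nhds_le_map_nhds with h | h
  · exfalso
    have h1 : ∀ᶠ w in 𝓝 z, w = z := by
      filter_upwards [h, hnz] with w hw hwE
      exact hi hwE hz hw
    have h2 : ∀ᶠ w in 𝓝[≠] z, w = z := h1.filter_mono nhdsWithin_le_nhds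
    have h3 : ∀ᶠ w in 𝓝[≠] z, w ≠ z := self_mem_nhdsWithin
    obtain ⟨w, hw1, hw2⟩ := (h2.and h3).exists
    exact hw2 hw1
  · apply h
    rw [mem_map]
    filter_upwards [hnz] with w hw
    exact ⟨w, hw, rfl⟩

/-! ### Boundary points -/

/-- The boundary point with coordinate `i y`. -/
noncomputable def bp (y : ℝ) : ℂ := (1 + (y : ℂ) * I) / (1 - (y : ℂ) * I)

lemma bp_aux (y : ℝ) : (1 : ℂ) - (y : ℂ) * I ≠ 0 := by
  intro h
  have := congrArg Complex.re h
  simp at this

lemma bp_aux2 (y : ℝ) : (1 : ℂ) + (y : ℂ) * I ≠ 0 := by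
  intro h
  have := congrArg Complex.re h
  simp at this

lemma bp_norm (y : ℝ) : ‖bp y‖ = 1 := by
  unfold bp
  have h : ‖(1 : ℂ) + (y : ℂ) * I‖ = ‖(1 : ℂ) - (y : ℂ) * I‖ := by
    have : (1 : ℂ) - (y : ℂ) * I = (starRingEnd ℂ) (1 + (y : ℂ) * I) := by
      apply Complex.ext <;> simp
    rw [this, Complex.norm_conj]
  rw [norm_div, h, div_self]
  exact norm_ne_zero_iff.mpr (bp_aux y)

lemma bp_ne (y : ℝ) : bp y ≠ -1 := by
  unfold bp
  intro h
  rw [div_eq_iff (bp_aux y)] at h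
  have : (2 : ℂ) = 0 := by linear_combination h
  norm_num at this

lemma bp_zero : bp 0 = 1 := by simp [bp]

lemma bp_sub (y : ℝ) : bp y - 1 = 2 * (y : ℂ) * I / (1 - (y : ℂ) * I) := by
  have := bp_aux y
  unfold bp
  field_simp
  ring

lemma qf_bp (y : ℝ) : qf (bp y) = (y : ℂ) * I := by
  have h1 := bp_aux y
  have h2 : bp y + 1 ≠ 0 := fun h => bp_ne y (eq_neg_of_add_eq_zero_left h)
  unfold qf
  rw [div_eq_iff h2]
  unfold bp
  field_simp
  ring

lemma pow_I {b : ℝ} {y : ℝ} (hy : 0 < y) {s : ℝ} (hs : s = 1 ∨ s = -1) :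
    (((s * y : ℝ) : ℂ) * I) ^ (b : ℂ) = ((y ^ b : ℝ) : ℂ) *
      ⟨-Real.sin ((b - 1) * (Real.pi / 2)), s * Real.cos ((b - 1) * (Real.pi / 2))⟩ := by
  have e1 : Real.cos (Real.pi / 2 * b) = -Real.sin ((b - 1) * (Real.pi / 2)) := by
    rw [show Real.pi / 2 * b = (b - 1) * (Real.pi / 2) + Real.pi / 2 by ring,
      Real.cos_add_pi_div_two]
  have e2 : Real.sin (Real.pi / 2 * b) = Real.cos ((b - 1) * (Real.pi / 2)) := by
    rw [show Real.pi / 2 * b = (b - 1) * (Real.pi / 2) + Real.pi / 2 by ring,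
      Real.sin_add_pi_div_two]
  have hn : ‖((s * y : ℝ) : ℂ) * I‖ = y := by
    rw [norm_mul, Complex.norm_I, mul_one, Complex.norm_real, Real.norm_eq_abs, abs_mul,
      abs_of_pos hy]
    rcases hs with rfl | rfl <;> simp
  have harg : arg (((s * y : ℝ) : ℂ) * I) = s * (Real.pi / 2) := by
    rcases hs with rfl | rfl
    · rw [one_mul, Complex.arg_real_mul _ hy, Complex.arg_I, one_mul]
    · have : (((-1 * y : ℝ)) : ℂ) * I = (y : ℂ) * (-I) := by
        push_cast
        ring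
      rw [this, Complex.arg_real_mul _ hy, Complex.arg_neg_I]
      ring
  apply Complex.ext
  · rw [Complex.cpow_ofReal_re, Complex.re_ofReal_mul, hn, harg]
    congr 1
    rw [← e1]
    rcases hs with rfl | rfl
    · rw [one_mul]
    · rw [← Real.cos_neg]
      congr 1
      ring
  · rw [Complex.cpow_ofReal_im, Complex.im_ofReal_mul, hn, harg]
    congr 1
    rw [← e2]
    rcases hs with rfl | rfl
    · rw [one_mul, one_mul]
    · have h : -1 * (Real.pi / 2) * b = -(Real.pi / 2 * b) := by ring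
      rw [h, Real.sin_neg]
      ring

lemma lens_one {b : ℝ} (hb : 1 < b) : lens b 1 = b := by
  have h : qf 1 = 0 := by simp [qf]
  have hb' : (b : ℂ) ≠ 0 := by exact_mod_cast (show (b : ℝ) ≠ 0 by linarith)
  unfold lens
  rw [h, Complex.zero_cpow hb']
  simp

/-- Expansion of the lens map at the corner. -/
lemma lens_expand {b : ℝ} (hb : 1 < b) (y : ℝ)
    (hy : ‖((y : ℂ) * I) ^ (b : ℂ)‖ ≤ 1 / 2) :
    ‖lens b (bp y) - b - 2 * b * ((y : ℂ) * I) ^ (b : ℂ)‖ ≤
      4 * b * ‖((y : ℂ) * I) ^ (b : ℂ)‖ ^ 2 := by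
  have hb0 : 0 < b := by linarith
  unfold lens
  rw [qf_bp]
  set P : ℂ := ((y : ℂ) * I) ^ (b : ℂ) with hP
  have h1 : 1 / 2 ≤ ‖1 - P‖ := by
    have := norm_sub_norm_le (1 : ℂ) P
    rw [norm_one] at this
    linarith
  have h2 : 1 - P ≠ 0 := by
    intro h
    rw [h, norm_zero] at h1
    linarith
  have e : (b : ℂ) * (1 + P) / (1 - P) - b - 2 * b * P = 2 * b * P ^ 2 / (1 - P) := by
    field_simp
    ring
  rw [e, norm_div, norm_mul, norm_mul, norm_pow, Complex.norm_real, Complex.norm_ofNat,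
    Real.norm_of_nonneg hb0.le, div_le_iff₀ (by linarith)]
  have : 0 ≤ b * ‖P‖ ^ 2 := by positivity
  nlinarith

lemma lens_tendsto_one {b : ℝ} (hb : 1 < b) : ContinuousAt (lens b) 1 := by
  have h : qf 1 = 0 := by simp [qf]
  have hb' : (b : ℂ) ≠ 0 := by exact_mod_cast (show (b : ℝ) ≠ 0 by linarith)
  have h1 : ContinuousAt qf 1 := by
    unfold qf
    apply ContinuousAt.div
    · fun_prop
    · fun_prop
    · norm_num
  have h2 : ContinuousAt (fun x : ℂ => x ^ (b : ℂ)) (qf 1) := by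
    rw [h]
    apply Complex.continuousAt_cpow_const_of_re_pos
    · left
      simp
    · simp
      linarith
  have h3 : ContinuousAt (fun z => qf z ^ (b : ℂ)) 1 := ContinuousAt.comp (f := qf) h2 h1
  unfold lens
  apply ContinuousAt.div
  · exact continuousAt_const.mul (continuousAt_const.add h3)
  · exact continuousAt_const.sub h3
  · rw [h, Complex.zero_cpow hb']
    simp

/-- The combination of a map which is regular at the point `1` with the lens map is not convex. -/
theorem core {b : ℝ} (hb : 1 < b) (hb2 : b < 4 / 3) {F : ℂ → ℂ} {a : ℂ} {C : ℝ}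
    (hFd : DifferentiableOn ℂ F HalfSum.Ext)
    (hFc : Tendsto (fun n : ℕ => F (1 + 1 / ((n : ℂ) + 1))) atTop (𝓝 (F 1)))
    (hR : ∀ z ∈ HalfSum.Ext, ∀ w : ℂ, 1 ≤ ‖w‖ → w ≠ z → 0 ≤ ((F z - F w) / (z - w)).re)
    (hE : ∀ y : ℝ, |y| ≤ 1 → ‖F (bp y) - F 1 - a * (2 * (y : ℂ) * I)‖ ≤ C * y ^ 2)
    (ha0 : 0 ≤ a.re)
    (ha : Real.sin ((b - 1) * (Real.pi / 2)) * a.re <
      Real.cos ((b - 1) * (Real.pi / 2)) * |a.im|)
    {t : ℝ} (ht0 : 0 < t) (ht1 : t < 1) :
    ¬ Convex ℝ ((fun z => (t : ℂ) * F z + (1 - (t : ℂ)) * lens b z) '' HalfSum.Ext)ᶜ := by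
  intro hconv
  have hpi := Real.pi_pos
  set d : ℝ := (b - 1) * (Real.pi / 2) with hd
  have hd0 : 0 < d := by
    rw [hd]
    apply mul_pos <;> linarith
  have hd1 : d < Real.pi / 6 := by
    rw [hd]
    nlinarith
  have hc : 0 < Real.cos d := Real.cos_pos_of_mem_Ioo ⟨by linarith, by linarith⟩
  have hs : 0 < Real.sin d := Real.sin_pos_of_pos_of_lt_pi hd0 (by linarith)
  set H : ℂ → ℂ := fun z => (t : ℂ) * F z + (1 - (t : ℂ)) * lens b z with hH
  have hHv : ∀ z, H z = (t : ℂ) * F z + (1 - (t : ℂ)) * lens b z := fun z => rfl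
  have hquot : ∀ z ∈ HalfSum.Ext, ∀ w : ℂ, 1 ≤ ‖w‖ → w ≠ -1 → w ≠ z →
      0 < ((H z - H w) / (z - w)).re := by
    intro z hz w hw hw1 hwz
    have h1 := hR z hz w hw hwz
    have h2 := lens_quot hb hb2 hz hw hw1 hwz
    have e : (H z - H w) / (z - w) = (t : ℂ) * ((F z - F w) / (z - w)) +
        ((1 - t : ℝ) : ℂ) * ((lens b z - lens b w) / (z - w)) := by
      rw [hHv, hHv]
      push_cast
      ring
    rw [e, Complex.add_re, Complex.re_ofReal_mul, Complex.re_ofReal_mul]
    have := mul_nonneg ht0.le h1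
    have := mul_pos (show (0 : ℝ) < 1 - t by linarith) h2
    linarith
  have hHd : DifferentiableOn ℂ H HalfSum.Ext :=
    (hFd.const_mul _).add ((lens_diff hb (by linarith)).const_mul _)
  have hHi : InjOn H HalfSum.Ext := by
    intro z hz w hw h
    by_contra hne
    have hw1 : 1 < ‖w‖ := hw
    have := hquot z hz w hw1.le (ext_ne_neg hw) (Ne.symm hne)
    rw [h, sub_self, zero_div] at this
    simp at this
  have hopen := image_open hHd hHi
  have hKc : IsClosed (H '' HalfSum.Ext)ᶜ := hopen.isClosed_compl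
  have hmem : ∀ y : ℝ, H (bp y) ∈ (H '' HalfSum.Ext)ᶜ := by
    rintro y ⟨z, hz, h⟩
    have hz1 : 1 < ‖z‖ := hz
    have hne : bp y ≠ z := by
      rintro rfl
      rw [bp_norm] at hz1
      exact lt_irrefl _ hz1
    have := hquot z hz (bp y) (bp_norm y).ge (bp_ne y) hne
    rw [h, sub_self, zero_div] at this
    simp at this
  have hzn : ∀ n : ℕ, (1 + 1 / ((n : ℂ) + 1)) ∈ HalfSum.Ext := by
    intro n
    show 1 < ‖1 + 1 / ((n : ℂ) + 1)‖
    have e : (1 : ℂ) + 1 / ((n : ℂ) + 1) = ((1 + 1 / ((n : ℝ) + 1) : ℝ) : ℂ) := by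
      push_cast
      ring
    rw [e, Complex.norm_real, Real.norm_of_nonneg (by positivity)]
    have : 0 < 1 / ((n : ℝ) + 1) := by positivity
    linarith
  have hzl : Tendsto (fun n : ℕ => (1 + 1 / ((n : ℂ) + 1))) atTop (𝓝 1) := by
    have h1 : Tendsto (fun n : ℕ => (((1 / ((n : ℝ) + 1)) : ℝ) : ℂ)) atTop (𝓝 ((0 : ℝ) : ℂ)) :=
      (Complex.continuous_ofReal.tendsto 0).comp tendsto_one_div_add_atTop_nhds_zero_nat
    have h2 := h1.const_add 1
    simp only [Complex.ofReal_zero, add_zero] at h2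
    refine h2.congr ?_
    intro n
    push_cast
    ring
  have hlim : Tendsto (fun n : ℕ => H (1 + 1 / ((n : ℂ) + 1))) atTop (𝓝 (H 1)) := by
    rw [hHv 1]
    exact (hFc.const_mul _).add (((lens_tendsto_one hb).tendsto.comp hzl).const_mul _)
  obtain ⟨A, B, hAB, hsup⟩ := support hconv hKc ⟨_, hmem 0⟩
    (fun n => not_not.mpr ⟨_, hzn n, rfl⟩) hlim
  -- the inequality for the boundary points
  set M : ℝ := (|A| + |B|) * (t * C + (1 - t) * (4 * b)) with hM
  have hineq : ∀ s : ℝ, (s = 1 ∨ s = -1) → ∀ y : ℝ, 0 < y → y < 1 / 2 →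
      (2 * t * s * (B * a.re - A * a.im)) * y +
        (2 * b * (1 - t) * (-A * Real.sin d + s * (B * Real.cos d))) * y ^ b ≤ M * y ^ 2 := by
    intro s hs1 y hy hy1
    have hk := hsup _ (hmem (s * y))
    have hs2 : |s| = 1 := by
      rcases hs1 with rfl | rfl <;> simp
    have hss : s ^ 2 = 1 := by
      rcases hs1 with rfl | rfl <;> norm_num
    have hP := pow_I (b := b) hy hs1
    rw [← hd] at hP
    have hyb : 0 < y ^ b := Real.rpow_pos_of_pos hy b
    have hyb1 : y ^ b ≤ y := by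
      have := Real.rpow_le_rpow_of_exponent_ge hy (by linarith) hb.le
      simpa using this
    have hPn : ‖(((s * y : ℝ) : ℂ) * I) ^ (b : ℂ)‖ = y ^ b := by
      rw [Complex.norm_cpow_of_ne_zero]
      · have hn : ‖((s * y : ℝ) : ℂ) * I‖ = y := by
          rw [norm_mul, Complex.norm_I, mul_one, Complex.norm_real, Real.norm_eq_abs, abs_mul,
            abs_of_pos hy, hs2, one_mul]
        rw [hn]
        simp
      · apply mul_ne_zero _ Complex.I_ne_zero
        have : s * y ≠ 0 := by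
          apply mul_ne_zero _ hy.ne'
          rintro rfl
          simp at hs2
        exact_mod_cast this
    have h1 := lens_expand hb (s * y) (by rw [hPn]; linarith)
    have h2 := hE (s * y) (by rw [abs_mul, hs2, abs_of_pos hy]; linarith)
    rw [hPn] at h1
    rw [hP] at h1
    set e : ℂ := ⟨-Real.sin d, s * Real.cos d⟩ with he
    set R1 : ℂ := lens b (bp (s * y)) - b - 2 * b * (((y ^ b : ℝ) : ℂ) * e) with hR1
    set R2 : ℂ := F (bp (s * y)) - F 1 - a * (2 * ((s * y : ℝ) : ℂ) * I) with hR2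
    have e1 : H (bp (s * y)) - H 1 = ((2 * t * s * y : ℝ) : ℂ) * (a * I) +
        ((2 * b * (1 - t) * y ^ b : ℝ) : ℂ) * e + ((t : ℂ) * R2 + ((1 - t : ℝ) : ℂ) * R1) := by
      rw [hHv, hHv, lens_one hb, hR1, hR2]
      push_cast
      ring
    have hRn : ‖(t : ℂ) * R2 + ((1 - t : ℝ) : ℂ) * R1‖ ≤ (t * C + (1 - t) * (4 * b)) * y ^ 2 := by
      have h3 : (y ^ b) ^ 2 ≤ y ^ 2 := pow_le_pow_left₀ hyb.le hyb1 2
      have h4 : (s * y) ^ 2 = y ^ 2 := by rw [mul_pow, hss, one_mul]
      rw [h4] at h2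
      have h5 : 0 ≤ 1 - t := by linarith
      calc ‖(t : ℂ) * R2 + ((1 - t : ℝ) : ℂ) * R1‖
          ≤ ‖(t : ℂ) * R2‖ + ‖((1 - t : ℝ) : ℂ) * R1‖ := norm_add_le _ _
        _ ≤ t * (C * y ^ 2) + (1 - t) * (4 * b * y ^ 2) := by
            rw [norm_mul, norm_mul, Complex.norm_real, Complex.norm_real,
              Real.norm_of_nonneg ht0.le, Real.norm_of_nonneg h5]
            have h6 : ‖R1‖ ≤ 4 * b * y ^ 2 := h1.trans (by
              have : 0 ≤ 4 * b := by linarith
              exact mul_le_mul_of_nonneg_left h3 this)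
            gcongr
        _ = (t * C + (1 - t) * (4 * b)) * y ^ 2 := by ring
    set R : ℂ := (t : ℂ) * R2 + ((1 - t : ℝ) : ℂ) * R1 with hR'
    have hRl : -((|A| + |B|) * ((t * C + (1 - t) * (4 * b)) * y ^ 2)) ≤ A * R.re + B * R.im := by
      have i1 := Complex.abs_re_le_norm R
      have i2 := Complex.abs_im_le_norm R
      have i3 : |A * R.re| ≤ |A| * ((t * C + (1 - t) * (4 * b)) * y ^ 2) := by
        rw [abs_mul]
        exact mul_le_mul_of_nonneg_left (i1.trans hRn) (abs_nonneg A)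
      have i4 : |B * R.im| ≤ |B| * ((t * C + (1 - t) * (4 * b)) * y ^ 2) := by
        rw [abs_mul]
        exact mul_le_mul_of_nonneg_left (i2.trans hRn) (abs_nonneg B)
      have i5 := neg_abs_le (A * R.re)
      have i6 := neg_abs_le (B * R.im)
      nlinarith
    rw [e1] at hk
    simp only [Complex.add_re, Complex.add_im, Complex.re_ofReal_mul, Complex.im_ofReal_mul,
      Complex.mul_I_re, Complex.mul_I_im] at hk
    have er : e.re = -Real.sin d := rfl
    have ei : e.im = s * Real.cos d := rfl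
    rw [er, ei] at hk
    rw [hM]
    nlinarith
  -- first order
  have m1 := lim_aux hb (by norm_num : (0 : ℝ) < 1 / 2) (hineq 1 (Or.inl rfl))
  have m2 := lim_aux hb (by norm_num : (0 : ℝ) < 1 / 2) (hineq (-1) (Or.inr rfl))
  have m3 : B * a.re - A * a.im = 0 := by
    have h1 : t * (B * a.re - A * a.im) ≤ 0 := by linarith
    have h2 : 0 ≤ t * (B * a.re - A * a.im) := by linarith
    have h3 : t * (B * a.re - A * a.im) = 0 := le_antisymm h1 h2
    exact (mul_eq_zero.mp h3).resolve_left ht0.ne'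
  have n1 := lim_aux2 (b := b) (M := M) (e := 2 * b * (1 - t) * (-A * Real.sin d +
      1 * (B * Real.cos d))) (by linarith) (by norm_num : (0 : ℝ) < 1 / 2) (fun y h1 h2 => by
    have := hineq 1 (Or.inl rfl) y h1 h2
    rw [m3] at this
    linarith)
  have n2 := lim_aux2 (b := b) (M := M) (e := 2 * b * (1 - t) * (-A * Real.sin d +
      (-1) * (B * Real.cos d))) (by linarith) (by norm_num : (0 : ℝ) < 1 / 2) (fun y h1 h2 => by
    have := hineq (-1) (Or.inr rfl) y h1 h2
    rw [m3] at this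
    linarith)
  have hpos : 0 < 2 * b * (1 - t) := by
    have : 0 < 1 - t := by linarith
    positivity
  have o1 : -A * Real.sin d + 1 * (B * Real.cos d) ≤ 0 :=
    nonpos_of_mul_nonpos_right n1 hpos
  have o2 : -A * Real.sin d + (-1) * (B * Real.cos d) ≤ 0 :=
    nonpos_of_mul_nonpos_right n2 hpos
  have o3 : |B| * Real.cos d ≤ A * Real.sin d := by
    rcases abs_cases B with ⟨h, _⟩ | ⟨h, _⟩
    · rw [h]
      linarith
    · rw [h]
      linarith
  have hA0 : 0 < A := by
    have h1 : 0 ≤ A * Real.sin d := le_trans (by positivity) o3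
    have h2 : 0 ≤ A := nonneg_of_mul_nonneg_left h1 hs
    rcases h2.eq_or_lt with h | h
    · exfalso
      rw [← h, zero_mul] at o3
      have h3 : |B| ≤ 0 := nonpos_of_mul_nonpos_left o3 hc
      have h4 : B = 0 := abs_nonpos_iff.mp h3
      rcases hAB with h5 | h5
      · exact h5 h.symm
      · exact h5 h4
    · exact h
  have q1 : A * |a.im| = |B| * a.re := by
    have h1 : A * a.im = B * a.re := by linarith
    have h2 := congrArg abs h1
    rwa [abs_mul, abs_mul, abs_of_pos hA0, abs_of_nonneg ha0] at h2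
  have q2 : A * (Real.cos d * |a.im|) ≤ A * (Real.sin d * a.re) := by
    have h1 := mul_le_mul_of_nonneg_right o3 ha0
    nlinarith
  have q3 := mul_lt_mul_of_pos_left ha hA0
  linarith

end Pool.Agent.Y313.CX
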