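import Mathlib
import Pool.Agent.Y313.CX.Core

open Complex Set Filter Topology

namespace Pool.Agent.Y313.CX

open Pool.Agent.Results.MP_308aa3_an

open Pool.Agent.Results.MP_308aa3_an.HalfSum (IsSigma IsConvexSigma laurent_of_tendsto ext_ne
  q_re_pos ext_open ext_mem normSq_gt)

/-! ### Ellipses and segments -/

/-- The sum of the distances to the foci. -/
lemma foci_sum {w x u1 u2 b : ℂ} (h1 : u1 + u2 = x) (h2 : u1 * u2 = w) (hb : b ^ 2 = w) :
    ‖x - 2 * b‖ + ‖x + 2 * b‖ = 2 * (‖u1‖ + ‖u2‖) := by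
  obtain ⟨p, hp⟩ := IsAlgClosed.exists_pow_nat_eq u1 (n := 2) (by norm_num)
  obtain ⟨q, hq⟩ := IsAlgClosed.exists_pow_nat_eq u2 (n := 2) (by norm_num)
  have h3 : (p * q) ^ 2 = b ^ 2 := by
    rw [mul_pow, hp, hq, h2, hb]
  have h4 : ‖p + q‖ * ‖p + q‖ + ‖p - q‖ * ‖p - q‖ = 2 * (‖p‖ * ‖p‖ + ‖q‖ * ‖q‖) := by
    have := parallelogram_law_with_norm ℂ p q
    nlinarith
  have h5 : ‖u1‖ = ‖p‖ * ‖p‖ := by rw [← hp, sq, norm_mul]
  have h6 : ‖u2‖ = ‖q‖ * ‖q‖ := by rw [← hq, sq, norm_mul]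
  have e1 : (p - q) * (p - q) = x - 2 * (p * q) := by
    rw [← h1, ← hp, ← hq]
    ring
  have e2 : (p + q) * (p + q) = x + 2 * (p * q) := by
    rw [← h1, ← hp, ← hq]
    ring
  rw [h5, h6, ← h4, ← norm_mul, ← norm_mul, e1, e2]
  rcases sq_eq_sq_iff_eq_or_eq_neg.mp h3 with h | h
  · rw [h]
    ring
  · rw [h]
    have a1 : x - 2 * -b = x + 2 * b := by ring
    have a2 : x + 2 * -b = x - 2 * b := by ring
    rw [a1, a2]

lemma ell_compl {w b : ℂ} (hw : ‖w‖ ≤ 1) (hb : b ^ 2 = w) :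
    ((fun z : ℂ => z + w / z) '' HalfSum.Ext)ᶜ =
      {x : ℂ | ‖x - 2 * b‖ + ‖x + 2 * b‖ ≤ 2 * (1 + ‖w‖)} := by
  ext x
  constructor
  · intro hx
    obtain ⟨s, hs⟩ := IsAlgClosed.exists_pow_nat_eq (x ^ 2 - 4 * w) (n := 2) (by norm_num)
    set u1 : ℂ := (x + s) / 2 with hu1
    set u2 : ℂ := (x - s) / 2 with hu2
    have h1 : u1 + u2 = x := by
      rw [hu1, hu2]
      ring
    have h2 : u1 * u2 = w := by
      rw [hu1, hu2]
      linear_combination (-1 / 4 : ℂ) * hs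
    show ‖x - 2 * b‖ + ‖x + 2 * b‖ ≤ 2 * (1 + ‖w‖)
    rw [foci_sum h1 h2 hb]
    have key : ∀ a c : ℂ, a + c = x → a * c = w → ‖a‖ ≤ 1 := by
      intro a c h3 h4
      by_contra hcon
      push Not at hcon
      apply hx
      have ha : a ≠ 0 := by
        rintro rfl
        rw [norm_zero] at hcon
        linarith
      refine ⟨a, hcon, ?_⟩
      show a + w / a = x
      rw [← h3, ← h4, mul_div_cancel_left₀ _ ha]
    have k1 := key u1 u2 h1 h2
    have k2 := key u2 u1 (by rw [add_comm]; exact h1) (by rw [mul_comm]; exact h2)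
    have k3 : ‖w‖ = ‖u1‖ * ‖u2‖ := by rw [← h2, norm_mul]
    rw [k3]
    nlinarith
  · rintro hx ⟨z, hz, h⟩
    have hz1 : 1 < ‖z‖ := hz
    have hz0 := (ext_ne hz).1
    have h' : z + w / z = x := h
    have h2 : z * (w / z) = w := mul_div_cancel₀ _ hz0
    have hx' : ‖x - 2 * b‖ + ‖x + 2 * b‖ ≤ 2 * (1 + ‖w‖) := hx
    rw [foci_sum h' h2 hb] at hx'
    have k3 : ‖w‖ = ‖z‖ * ‖w / z‖ := by rw [← norm_mul, h2]
    have k4 : ‖w / z‖ < 1 := by
      rw [norm_div, div_lt_one (by linarith)]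
      linarith
    rw [k3] at hx'
    nlinarith

lemma ell_quot {w z x : ℂ} (hz : z ≠ 0) (hx : x ≠ 0) (hzx : x ≠ z) :
    ((z + w / z) - (x + w / x)) / (z - x) = 1 - w / (z * x) := by
  have : z - x ≠ 0 := sub_ne_zero.mpr (Ne.symm hzx)
  field_simp
  ring

lemma ell_re {w z x : ℂ} (hw : ‖w‖ ≤ 1) (hz : z ∈ HalfSum.Ext) (hx : 1 ≤ ‖x‖) :
    0 < (1 - w / (z * x)).re := by
  have hz1 : 1 < ‖z‖ := hz
  have h1 : ‖w / (z * x)‖ < 1 := by
    rw [norm_div, norm_mul, div_lt_one (by positivity)]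
    nlinarith
  have h2 := Complex.re_le_norm (w / (z * x))
  rw [Complex.sub_re, Complex.one_re]
  linarith

lemma ell_convexSigma {w : ℂ} (hw : ‖w‖ ≤ 1) : IsConvexSigma (fun z => z + w / z) := by
  have hd : DifferentiableOn ℂ (fun z : ℂ => z + w / z) HalfSum.Ext := by
    intro z hz
    apply DifferentiableAt.differentiableWithinAt
    exact differentiableAt_id.add ((differentiableAt_const _).div differentiableAt_id (ext_ne hz).1)
  have ht : Tendsto (fun z : ℂ => (z + w / z) - z) (cocompact ℂ) (𝓝 0) := by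
    have h1 : (fun z : ℂ => (z + w / z) - z) = fun z => w * z⁻¹ := by
      ext z
      rw [div_eq_mul_inv]
      ring
    rw [h1]
    have h2 : Tendsto (fun z : ℂ => z⁻¹) (cocompact ℂ) (𝓝 0) := by
      rw [← Metric.cobounded_eq_cocompact]
      exact tendsto_inv₀_cobounded
    simpa using h2.const_mul w
  refine ⟨⟨hd, ?_, laurent_of_tendsto hd ht⟩, ?_⟩
  · intro z hz x hx h
    by_contra hne
    have hx1 : 1 < ‖x‖ := hx
    have h1 := ell_re hw hz hx1.le
    rw [← ell_quot (ext_ne hz).1 (ext_ne hx).1 (Ne.symm hne)] at h1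
    have h2 : (z + w / z) - (x + w / x) = 0 := sub_eq_zero.mpr h
    rw [h2, zero_div] at h1
    simp at h1
  · obtain ⟨b, hb⟩ := IsAlgClosed.exists_pow_nat_eq w (n := 2) (by norm_num)
    rw [ell_compl hw hb]
    intro x hx y hy α β hα hβ hαβ
    have hx' : ‖x - 2 * b‖ + ‖x + 2 * b‖ ≤ 2 * (1 + ‖w‖) := hx
    have hy' : ‖y - 2 * b‖ + ‖y + 2 * b‖ ≤ 2 * (1 + ‖w‖) := hy
    show ‖α • x + β • y - 2 * b‖ + ‖α • x + β • y + 2 * b‖ ≤ 2 * (1 + ‖w‖)
    have hαβ' : (α : ℂ) + β = 1 := by exact_mod_cast hαβ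
    have e1 : α • x + β • y - 2 * b = α • (x - 2 * b) + β • (y - 2 * b) := by
      simp only [Complex.real_smul]
      linear_combination (2 * b) * hαβ'
    have e2 : α • x + β • y + 2 * b = α • (x + 2 * b) + β • (y + 2 * b) := by
      simp only [Complex.real_smul]
      linear_combination (-2 * b) * hαβ'
    rw [e1, e2]
    have n1 : ‖α • (x - 2 * b) + β • (y - 2 * b)‖ ≤ α * ‖x - 2 * b‖ + β * ‖y - 2 * b‖ := by
      refine (norm_add_le _ _).trans ?_
      rw [norm_smul, norm_smul, Real.norm_of_nonneg hα, Real.norm_of_nonneg hβ]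
    have n2 : ‖α • (x + 2 * b) + β • (y + 2 * b)‖ ≤ α * ‖x + 2 * b‖ + β * ‖y + 2 * b‖ := by
      refine (norm_add_le _ _).trans ?_
      rw [norm_smul, norm_smul, Real.norm_of_nonneg hα, Real.norm_of_nonneg hβ]
    have n3 := mul_le_mul_of_nonneg_left hx' hα
    have n4 := mul_le_mul_of_nonneg_left hy' hβ
    have n5 : α * (2 * (1 + ‖w‖)) + β * (2 * (1 + ‖w‖)) = 2 * (1 + ‖w‖) := by
      rw [← add_mul, hαβ, one_mul]
    linarith

/-! ### Rotations -/

lemma rot_mem {k z : ℂ} (hk : ‖k‖ = 1) (hz : z ∈ HalfSum.Ext) : z / k ∈ HalfSum.Ext := by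
  have hz1 : 1 < ‖z‖ := hz
  show 1 < ‖z / k‖
  rwa [norm_div, hk, div_one]

lemma rot_mem' {k z : ℂ} (hk : ‖k‖ = 1) (hz : z ∈ HalfSum.Ext) : k * z ∈ HalfSum.Ext := by
  have hz1 : 1 < ‖z‖ := hz
  show 1 < ‖k * z‖
  rwa [norm_mul, hk, one_mul]

lemma norm_one_ne {k : ℂ} (hk : ‖k‖ = 1) : k ≠ 0 := by
  rintro rfl
  simp at hk

lemma rot_image {k : ℂ} (hk : ‖k‖ = 1) (f : ℂ → ℂ) :
    ((fun z => k * f (z / k)) '' HalfSum.Ext)ᶜ =
      (fun x : ℂ => k⁻¹ * x) ⁻¹' (f '' HalfSum.Ext)ᶜ := by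
  have hk0 := norm_one_ne hk
  ext x
  simp only [mem_compl_iff, mem_preimage, not_iff_not]
  constructor
  · rintro ⟨z, hz, h⟩
    refine ⟨z / k, rot_mem hk hz, ?_⟩
    rw [← h]
    show f (z / k) = k⁻¹ * (k * f (z / k))
    field_simp
  · rintro ⟨z, hz, h⟩
    refine ⟨k * z, rot_mem' hk hz, ?_⟩
    show k * f (k * z / k) = x
    rw [mul_div_cancel_left₀ _ hk0, h]
    field_simp

lemma rot_image' {k : ℂ} (hk : ‖k‖ = 1) (f : ℂ → ℂ) :
    (f '' HalfSum.Ext)ᶜ =
      (fun x : ℂ => k * x) ⁻¹' ((fun z => k * f (z / k)) '' HalfSum.Ext)ᶜ := by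
  have hk0 := norm_one_ne hk
  rw [rot_image hk]
  ext x
  simp only [mem_preimage]
  rw [inv_mul_cancel_left₀ hk0]

lemma rot_convex {k : ℂ} (hk : ‖k‖ = 1) (f : ℂ → ℂ) :
    Convex ℝ ((fun z => k * f (z / k)) '' HalfSum.Ext)ᶜ ↔ Convex ℝ (f '' HalfSum.Ext)ᶜ := by
  constructor
  · intro h
    rw [rot_image' hk f]
    exact h.linear_preimage (LinearMap.mulLeft ℝ k)
  · intro h
    rw [rot_image hk f]
    exact h.linear_preimage (LinearMap.mulLeft ℝ k⁻¹)

lemma rot_convexSigma {k : ℂ} (hk : ‖k‖ = 1) {f : ℂ → ℂ} (hf : IsConvexSigma f) :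
    IsConvexSigma (fun z => k * f (z / k)) := by
  have hk0 := norm_one_ne hk
  refine ⟨⟨?_, ?_, ?_⟩, (rot_convex hk f).mpr hf.2⟩
  · intro z hz
    have h1 : DifferentiableAt ℂ f (z / k) :=
      hf.1.analytic.differentiableAt (ext_open.mem_nhds (rot_mem hk hz))
    apply DifferentiableAt.differentiableWithinAt
    have h2 : DifferentiableAt ℂ (fun z : ℂ => z / k) z := by fun_prop
    exact (DifferentiableAt.comp z h1 h2).const_mul k
  · intro z hz x hx h
    have h1 := mul_left_cancel₀ hk0 h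
    have h2 := hf.1.univalent (rot_mem hk hz) (rot_mem hk hx) h1
    have h3 : z / k * k = x / k * k := by rw [h2]
    rwa [div_mul_cancel₀ _ hk0, div_mul_cancel₀ _ hk0] at h3
  · obtain ⟨b, hb⟩ := hf.1.laurent
    refine ⟨fun n => b n * k ^ (n + 2), ?_⟩
    intro z hz
    have h1 := (hb (z / k) (rot_mem hk hz)).mul_left k
    have e1 : k * (f (z / k) - z / k) = k * f (z / k) - z := by
      field_simp
    rw [e1] at h1
    refine h1.congr_fun ?_
    intro n
    rw [inv_div, div_eq_mul_inv, mul_pow]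
    ring

/-! ### The main theorem -/

lemma ell_expand {w : ℂ} (hw : ‖w‖ ≤ 1) (y : ℝ) :
    ‖(bp y + w / bp y) - (1 + w / 1) - (1 - w) * (2 * (y : ℂ) * I)‖ ≤ 4 * y ^ 2 := by
  have h1 := bp_aux y
  have h2 := bp_aux2 y
  have e : (bp y + w / bp y) - (1 + w / 1) - (1 - w) * (2 * (y : ℂ) * I) =
      2 * ((y : ℂ) * I) ^ 2 * (1 / (1 - (y : ℂ) * I) + w / (1 + (y : ℂ) * I)) := by
    unfold bp
    field_simp
    ring
  have n1 : ∀ v : ℂ, v.re = 1 → 1 ≤ ‖v‖ := by
    intro v hv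
    rw [← hv]
    exact Complex.re_le_norm v
  have n2 : ‖1 / (1 - (y : ℂ) * I)‖ ≤ 1 := by
    rw [norm_div, norm_one, div_le_one (norm_pos_iff.mpr h1)]
    exact n1 _ (by simp)
  have n3 : ‖w / (1 + (y : ℂ) * I)‖ ≤ 1 := by
    have h3 : 1 ≤ ‖1 + (y : ℂ) * I‖ := n1 _ (by simp)
    rw [norm_div, div_le_one (by linarith)]
    linarith
  rw [e, norm_mul, norm_mul, norm_pow, norm_mul, Complex.norm_I, mul_one, Complex.norm_real,
    Complex.norm_ofNat, Real.norm_eq_abs, sq_abs]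
  have n4 : ‖1 / (1 - (y : ℂ) * I) + w / (1 + (y : ℂ) * I)‖ ≤ 2 := by
    refine (norm_add_le _ _).trans ?_
    linarith
  nlinarith [sq_nonneg y]

/-- For the ellipse map with a purely imaginary parameter the lens map works. -/
lemma imag_case {r : ℝ} (hr : 0 < r) (hr1 : r ≤ 1) {t : ℝ} (ht0 : 0 < t) (ht1 : t < 1) :
    ¬ Convex ℝ ((fun z => (t : ℂ) * (z + (I * (r : ℂ)) / z) +
      (1 - (t : ℂ)) * lens (1 + r / 4) z) '' HalfSum.Ext)ᶜ := by
  have hw : ‖I * (r : ℂ)‖ ≤ 1 := by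
    rw [norm_mul, Complex.norm_I, one_mul, Complex.norm_real, Real.norm_of_nonneg hr.le]
    exact hr1
  have hpi := Real.pi_pos
  have hpi4 := Real.pi_lt_four
  apply core (b := 1 + r / 4) (F := fun z => z + (I * (r : ℂ)) / z) (a := 1 - I * (r : ℂ)) (C := 4)
    (by linarith) (by linarith) (ell_convexSigma hw).1.analytic _ _ _ _ _ ht0 ht1
  · have hc : ContinuousAt (fun z : ℂ => z + (I * (r : ℂ)) / z) 1 := by
      apply ContinuousAt.add continuousAt_id
      exact continuousAt_const.div continuousAt_id one_ne_zero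
    have hzl : Tendsto (fun n : ℕ => (1 + 1 / ((n : ℂ) + 1))) atTop (𝓝 1) := by
      have h1 : Tendsto (fun n : ℕ => (((1 / ((n : ℝ) + 1)) : ℝ) : ℂ)) atTop (𝓝 ((0 : ℝ) : ℂ)) :=
        (Complex.continuous_ofReal.tendsto 0).comp tendsto_one_div_add_atTop_nhds_zero_nat
      have h2 := h1.const_add 1
      simp only [Complex.ofReal_zero, add_zero] at h2
      refine h2.congr ?_
      intro n
      push_cast
      ring
    exact hc.tendsto.comp hzl
  · intro z hz x hx hxz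
    have hx0 : x ≠ 0 := by
      rintro rfl
      rw [norm_zero] at hx
      linarith
    rw [ell_quot (ext_ne hz).1 hx0 hxz]
    exact (ell_re hw hz hx).le
  · intro y _
    exact ell_expand hw y
  · simp
  · have h1 : (1 - I * (r : ℂ)).re = 1 := by simp
    have h2 : |(1 - I * (r : ℂ)).im| = r := by
      simp [abs_of_pos hr]
    rw [h1, h2, mul_one]
    have hd : (1 + r / 4 - 1) * (Real.pi / 2) = r * (Real.pi / 8) := by ring
    rw [hd]
    have hd0 : 0 < r * (Real.pi / 8) := by positivity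
    have hd1 : r * (Real.pi / 8) ≤ Real.pi / 8 := by nlinarith
    have h3 : Real.sin (r * (Real.pi / 8)) < r * (Real.pi / 8) := Real.sin_lt hd0
    have h4 : 1 / 2 < Real.cos (r * (Real.pi / 8)) := by
      rw [← Real.cos_pi_div_three]
      apply Real.cos_lt_cos_of_nonneg_of_le_pi hd0.le (by linarith)
      linarith
    nlinarith

/-- **Main theorem**: every map onto the exterior of an ellipse or a segment has a convex partner
such that no proper convex combination is convex. -/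
theorem main {w : ℂ} (hw0 : w ≠ 0) (hw : ‖w‖ ≤ 1) :
    IsConvexSigma (fun z => z + w / z) ∧ ∃ G : ℂ → ℂ, IsConvexSigma G ∧ ∀ t : ℝ, 0 < t → t < 1 →
      ¬ Convex ℝ ((fun z => (t : ℂ) * (z + w / z) + (1 - (t : ℂ)) * G z) '' HalfSum.Ext)ᶜ := by
  refine ⟨ell_convexSigma hw, ?_⟩
  set r : ℝ := ‖w‖ with hr
  have hr0 : 0 < r := norm_pos_iff.mpr hw0
  have hrc : (r : ℂ) ≠ 0 := by exact_mod_cast hr0.ne'
  obtain ⟨k, hk⟩ := IsAlgClosed.exists_pow_nat_eq (w / (I * (r : ℂ))) (n := 2) (by norm_num)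
  have hkn : ‖k‖ = 1 := by
    have h1 : ‖k‖ ^ 2 = 1 := by
      rw [← norm_pow, hk, norm_div, norm_mul, Complex.norm_I, one_mul, Complex.norm_real,
        Real.norm_of_nonneg hr0.le, ← hr, div_self hr0.ne']
    nlinarith [norm_nonneg k]
  have hk0 := norm_one_ne hkn
  have hkw : k ^ 2 * (I * (r : ℂ)) = w := by
    rw [hk, div_mul_cancel₀ _ (mul_ne_zero Complex.I_ne_zero hrc)]
  refine ⟨fun z => k * lens (1 + r / 4) (z / k),
    rot_convexSigma hkn (lens_convexSigma (by linarith) (by linarith)), ?_⟩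
  intro t ht0 ht1 hconv
  apply imag_case hr0 hw ht0 ht1
  rw [← rot_convex hkn]
  convert hconv using 3
  rw [← hkw]
  field_simp

end Pool.Agent.Y313.CX
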